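import Pool.Agent.H752.KM.Stubs
import Pool.Agent.H620R2.Gauge.A2

/-!
# K10b: the martingale is computable
-/

namespace Pool.Agent.H752.KM

namespace Comp

open Pool.Agent.NPC Pool.Agent.H620R2.Gauge Pool.Agent.H622R2

section

variable {α : Type} [TEnc α]

theorem poly_prod {l : α → List ℕ} (hl : Poly l) : Poly (fun a => (l a).prod) := by
  obtain ⟨r, hr⟩ := hl.sz_le
  refine (Poly.foldr (s := fun _ => 1) (F := fun _ x s => x * s) hl (NPC.Poly.const 1)
    (Poly.mul (Poly.fst (Poly.snd Poly.id)) (Poly.snd (Poly.snd Poly.id)))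
    (Polynomial.C 4 * r + Polynomial.C 1) ?_).congr fun a => ?_
  · intro a k hk
    have key : ∀ l : List ℕ, (l.foldr (fun x s => x * s) 1).size ≤ sz l := by
      intro l
      induction l with
      | nil => simp
      | cons x l ih =>
        rw [List.foldr_cons]
        set s := l.foldr (fun x s => x * s) 1
        have h1 := Nat.lt_size_self x
        have h2 := Nat.lt_size_self s
        have h3 : x * s < 2 ^ (x.size + s.size) := by
          rw [pow_add]
          exact Nat.mul_lt_mul'' h1 h2
        have h4 := Nat.size_le.2 h3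
        have h5 := size_le_sz x
        simp
        omega
    have h1 := sz_nat_le (((l a).drop k).foldr (fun x s => x * s) 1)
    have h2 := key ((l a).drop k)
    have h3 := Poly.sz_drop_le (l a) k
    have h4 := hr a
    simp only [Polynomial.eval_add, Polynomial.eval_mul, Polynomial.eval_C]
    omega
  · induction l a with
    | nil => rfl
    | cons x l ih => simp [ih]

theorem poly_rep (b : Bool) {n : α → ℕ} (hn : UPoly n) :
    Poly (fun a => List.replicate (n a) b) :=
  (NPC.Poly.map hn (F := fun _ _ => b) (NPC.Poly.const b)).congr fun a => by simp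

theorem poly_pow2 {n : α → ℕ} (hn : UPoly n) : Poly (fun a => 2 ^ n a) :=
  (Poly.valBits (Poly.append (poly_rep false hn) (NPC.Poly.const [true]))).congr fun a => by
    simp [valB_replicate_false]

theorem upoly_min {n : α → ℕ} {w : α → List Bool} (hn : Poly n) (hw : Poly w) :
    UPoly (fun a => min (n a) (w a).length) :=
  UPoly.of_le (Poly.min hn (Poly.length hw)) (UPoly.length hw) (fun _ => min_le_right _ _)

theorem poly_pair {m n : α → ℕ} (hm : Poly m) (hn : Poly n) :
    Poly (fun a => Nat.pair (m a) (n a)) :=
  Poly.ite (p := fun a => m a < n a) (Poly.decide_lt hm hn) (Poly.add (Poly.mul hn hn) hm)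
    (Poly.add (Poly.add (Poly.mul hm hm) hm) hn)

end

/-- membership in `T` -/
def mem (V : List Bool → List Bool) (w : List Bool) (n : ℕ) : Bool :=
  decide (V (List.replicate (min n w.length) true) = [true])

/-- the rank -/
def rk' (V : List Bool → List Bool) (w : List Bool) (n : ℕ) : ℕ :=
  ((List.range (min n w.length)).filter (fun j => mem V w j)).length

/-- the test of the label -/
def labb (V : List Bool → List Bool) (w : List Bool) (n i : ℕ) : Bool :=
  (List.range (rk' V w n + 1)).any (fun b => decide (Nat.pair i b = rk' V w n))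

/-- the factor -/
def fac' (V : List Bool → List Bool) (w ans : List Bool) (n i : ℕ) : ℕ :=
  if mem V w n = true ∧ 2 ^ (min n w.length) ≤ w.length then
    (if labb V w n i = true then
      (if w.getD (2 ^ (min n w.length) - 1) false = ans.getD (2 ^ (min n w.length)) false
        then 3 else 1) else 2) else 2

/-- the numerator -/
def num (V : List Bool → List Bool) (w ans : List Bool) : ℕ :=
  2 ^ w.length + ((List.range w.length).map (fun i => 2 ^ (w.length - (i + 1)) *
    ((List.range w.length).map (fun n => fac' V w ans n i)).prod)).sum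

section

variable {α : Type} [TEnc α] {V : List Bool → List Bool}

theorem poly_mem (hV : PolyTime V) {w : α → List Bool} {n : α → ℕ} (hw : Poly w) (hn : Poly n) :
    Poly (fun a => mem V (w a) (n a)) :=
  Poly.decide_eq ((poly_of_polyTime hV).comp (poly_rep true (upoly_min hn hw)))
    (NPC.Poly.const [true])

theorem upoly_rk' (hV : PolyTime V) {w : α → List Bool} {n : α → ℕ} (hw : Poly w)
    (hn : Poly n) : UPoly (fun a => rk' V (w a) (n a)) :=
  UPoly.length (Poly.filter (p := fun a j => mem V (w a) j) (UPoly.range (upoly_min hn hw))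
    (poly_mem hV (hw.comp (Poly.fst Poly.id)) (Poly.snd Poly.id)))

theorem poly_labb (hV : PolyTime V) {w : α → List Bool} {n i : α → ℕ} (hw : Poly w)
    (hn : Poly n) (hi : Poly i) : Poly (fun a => labb V (w a) (n a) (i a)) := by
  have h1 := upoly_rk' hV hw hn
  exact Poly.any (l := fun a => List.range (rk' V (w a) (n a) + 1))
    (p := fun a b => decide (Nat.pair (i a) b = rk' V (w a) (n a)))
    (UPoly.range (UPoly.add h1 (UPoly.const 1)))
    (Poly.decide_eq (poly_pair (hi.comp (Poly.fst Poly.id)) (Poly.snd Poly.id))
      (h1.toPoly.comp (Poly.fst Poly.id)))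

theorem poly_fac' (hV : PolyTime V) {w ans : α → List Bool} {n i : α → ℕ} (hw : Poly w)
    (ha : Poly ans) (hn : Poly n) (hi : Poly i) :
    Poly (fun a => fac' V (w a) (ans a) (n a) (i a)) := by
  have h2 : Poly (fun a => 2 ^ (min (n a) (w a).length)) := poly_pow2 (upoly_min hn hw)
  refine Poly.ite (Poly.decide_and (Poly.decide_bool (poly_mem hV hw hn))
    (Poly.decide_le h2 (Poly.length hw))) ?_ (NPC.Poly.const 2)
  refine Poly.ite (Poly.decide_bool (poly_labb hV hw hn hi)) ?_ (NPC.Poly.const 2)
  exact Poly.ite (Poly.decide_eq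
    (Poly.getD hw (Poly.sub h2 (NPC.Poly.const 1)) (NPC.Poly.const false))
    (Poly.getD ha h2 (NPC.Poly.const false))) (NPC.Poly.const 3) (NPC.Poly.const 1)

theorem poly_num (hV : PolyTime V) {w ans : α → List Bool} (hw : Poly w) (ha : Poly ans) :
    Poly (fun a => num V (w a) (ans a)) := by
  refine Poly.add (poly_pow2 (UPoly.length hw)) (Poly.sum ?_)
  refine NPC.Poly.map (F := fun a i => 2 ^ ((w a).length - (i + 1)) *
    ((List.range (w a).length).map (fun n => fac' V (w a) (ans a) n i)).prod)
    (Poly.range_length hw) ?_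
  have hw' : Poly (fun p : α × ℕ => w p.1) := hw.comp (Poly.fst Poly.id)
  refine Poly.mul (poly_pow2 ?_) (poly_prod ?_)
  · exact UPoly.of_le (Poly.sub (Poly.length hw') (Poly.succ (Poly.snd Poly.id)))
      (UPoly.length hw') (fun a => Nat.sub_le _ _)
  · refine NPC.Poly.map (F := fun (p : α × ℕ) n => fac' V (w p.1) (ans p.1) n p.2)
      (Poly.range_length hw') ?_
    exact poly_fac' hV (hw.comp (Poly.fst (Poly.fst Poly.id)))
      (ha.comp (Poly.fst (Poly.fst Poly.id))) (Poly.snd Poly.id) (Poly.snd (Poly.fst Poly.id))

end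

/-- the questions -/
def Q (z : List Bool) : List (List Bool) :=
  (List.range (z.length + 1)).map fun j => List.replicate (min j z.length) true

theorem poly_Q : Poly Q := by
  refine NPC.Poly.map (F := fun (z : List Bool) j => List.replicate (min j z.length) true)
    (UPoly.range (UPoly.add (UPoly.length Poly.id) (UPoly.const 1))) ?_
  exact poly_rep true (upoly_min (Poly.snd Poly.id) (Poly.fst Poly.id))

/-- the output -/
def H (V : List Bool → List Bool) (c : List Bool × List Bool) : List Bool :=
  pairBits (false :: (num V (unpair (unpair c.1).2).2 c.2).bits)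
    (List.replicate ((unpair c.1).1.length + ((unpair (unpair c.1).2).2.length +
      (unpair (unpair c.1).2).2.length)) true)

theorem poly_H {V : List Bool → List Bool} (hV : PolyTime V) : Poly (H V) := by
  have h1 : Poly (fun c : List Bool × List Bool => unpair c.1) := poly_unpair.comp (Poly.fst Poly.id)
  have h2 : Poly (fun c : List Bool × List Bool => unpair (unpair c.1).2) :=
    poly_unpair.comp (Poly.snd h1)
  refine poly_pairBits (Poly.cons (NPC.Poly.const false) (Poly.natBits
    (poly_num hV (Poly.snd h2) (Poly.snd Poly.id)))) (poly_rep true ?_)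
  exact UPoly.add (UPoly.length (Poly.fst h1)) (UPoly.add (UPoly.length (Poly.snd h2))
    (UPoly.length (Poly.snd h2)))

theorem rk_eq {T : Set ℕ} {V : List Bool → List Bool}
    (hV : ∀ x : List Bool, x.length ∈ T ↔ V x = [true]) (w : List Bool) (n : ℕ)
    (hn : n ≤ w.length) : rk' V w n = rk T n := by
  classical
  unfold rk' rk
  rw [min_eq_left hn]
  have h1 : {j | j ∈ T ∧ j < n} = (((Finset.range n).filter (fun j => j ∈ T) : Finset ℕ) : Set ℕ) := by
    ext j
    simp [and_comm]
  rw [h1, Set.ncard_coe_finset]
  have h2 : (List.range n).filter (fun j => mem V w j) =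
      (List.range n).filter (fun j => decide (j ∈ T)) := by
    apply List.filter_congr
    intro j hj
    rw [List.mem_range] at hj
    unfold mem
    rw [min_eq_left (by omega), decide_eq_decide]
    have := hV (List.replicate j true)
    rw [List.length_replicate] at this
    exact this.symm
  rw [h2]
  rfl

theorem labb_eq {T : Set ℕ} {V : List Bool → List Bool}
    (hV : ∀ x : List Bool, x.length ∈ T ↔ V x = [true]) (w : List Bool) (n i : ℕ)
    (hn : n ≤ w.length) : labb V w n i = true ↔ lab T n = i := by
  unfold labb lab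
  rw [rk_eq hV w n hn]
  simp only [List.any_eq_true, List.mem_range, decide_eq_true_eq]
  constructor
  · rintro ⟨b, -, h⟩
    rw [← h, Nat.unpair_pair]
  · intro h
    refine ⟨(Nat.unpair (rk T n)).2, ?_, ?_⟩
    · have := Nat.unpair_right_le (rk T n)
      omega
    · rw [← h, Nat.pair_unpair]

theorem fac_eq {T : Set ℕ} {V : List Bool → List Bool} (A : Oracle)
    (hV : ∀ x : List Bool, x.length ∈ T ↔ V x = [true]) (w z : List Bool) (n i : ℕ)
    (hn : n < w.length) (hz : w.length ≤ z.length) :
    fac' V w ((Q z).map A) n i = fac T A w n i := by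
  classical
  unfold fac' fac
  have h1 : (mem V w n = true ∧ 2 ^ (min n w.length) ≤ w.length) ↔ (n ∈ T ∧ 2 ^ n ≤ w.length) := by
    unfold mem
    rw [min_eq_left hn.le, decide_eq_true_eq]
    have := hV (List.replicate n true)
    rw [List.length_replicate] at this
    rw [this]
  by_cases h2 : n ∈ T ∧ 2 ^ n ≤ w.length
  · rw [if_pos (h1.2 h2), if_pos h2, min_eq_left hn.le]
    have h3 : ((Q z).map A).getD (2 ^ n) false = A (uu n) := by
      have h4 : 2 ^ n < ((Q z).map A).length := by
        simp [Q]
        omega
      rw [List.getD_eq_getElem _ _ h4]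
      simp only [Q, List.getElem_map, List.getElem_range, uu]
      rw [min_eq_left (by omega)]
    rw [h3]
    by_cases h5 : lab T n = i
    · rw [if_pos ((labb_eq hV w n i hn.le).2 h5), if_pos h5]
    · rw [if_neg (fun h => h5 ((labb_eq hV w n i hn.le).1 h)), if_neg h5]
  · rw [if_neg (fun h => h2 (h1.1 h)), if_neg h2]

theorem num_eq {T : Set ℕ} {V : List Bool → List Bool} (A : Oracle)
    (hV : ∀ x : List Bool, x.length ∈ T ↔ V x = [true]) (w z : List Bool)
    (hz : w.length ≤ z.length) :
    num V w ((Q z).map A) = 2 ^ w.length + ∑ i ∈ Finset.range w.length,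
      2 ^ (w.length - (i + 1)) * ∏ n ∈ Finset.range w.length, fac T A w n i := by
  unfold num
  congr 1
  rw [Finset.sum_eq_multiset_sum, Finset.range_val, Multiset.range, Multiset.map_coe,
    Multiset.sum_coe]
  congr 1
  apply List.map_congr_left
  intro i hi
  congr 1
  rw [Finset.prod_eq_multiset_prod, Finset.range_val, Multiset.range, Multiset.map_coe,
    Multiset.prod_coe]
  congr 1
  apply List.map_congr_left
  intro n hn
  rw [List.mem_range] at hn
  exact fac_eq A hV w z n i hn hz

theorem mart_eq (T : Set ℕ) (A : Oracle) (w : List Bool) :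
    mart T A w = ((2 ^ w.length + ∑ i ∈ Finset.range w.length,
      2 ^ (w.length - (i + 1)) * ∏ n ∈ Finset.range w.length, fac T A w n i : ℕ) : ℝ) /
      2 ^ (w.length + w.length) := by
  unfold mart
  push_cast
  rw [add_div, Finset.sum_div, pow_add]
  congr 1
  · field_simp
    rw [← mul_pow]
    norm_num
  · apply Finset.sum_congr rfl
    intro i hi
    rw [Finset.mem_range] at hi
    rw [Finset.prod_div_distrib, Finset.prod_const, Finset.card_range]
    have h1 : (2 : ℝ) ^ w.length = 2 ^ (w.length - (i + 1)) * 2 ^ (i + 1) := by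
      rw [← pow_add]
      congr 1
      omega
    have h2 : (2 : ℝ)⁻¹ ^ (i + 1) = 2 ^ (w.length - (i + 1)) / 2 ^ w.length := by
      rw [h1, inv_pow]
      field_simp
    rw [h2]
    field_simp

end Comp

open Pool.Agent.NPC Pool.Agent.H620R2.Gauge Pool.Agent.H622R2

/-- K10b: the martingale is computable. -/
theorem t_comp : St_comp := by
  intro T A hT
  obtain ⟨-, V, hVp, hV⟩ := hT
  refine ⟨fun x => Comp.H V (x, (Comp.Q x).map A), ?_, ?_⟩
  · obtain ⟨M, hM⟩ := IsFP.tt (A := A) Comp.poly_Q (Comp.poly_H hVp)
    exact ⟨M, fun n => M.p.eval n, ⟨M.p, rfl⟩, hM⟩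
  · intro k r w
    have hz : w.length ≤ (inp k r w).length := by
      unfold inp
      rw [A2.length_pairBits, A2.length_pairBits]
      omega
    refine ⟨2⁻¹ ^ k * mart T A w, ?_, by simp⟩
    refine ⟨false, (Comp.num V w ((Comp.Q (inp k r w)).map A)).bits,
      List.replicate (k + (w.length + w.length)) true, ?_, ?_⟩
    · simp only [Comp.H]
      have h1 : unpair (inp k r w) = (List.replicate k true,
          pairBits (List.replicate r true) w) := unpair_pairBits _ _
      rw [h1]
      simp only [unpair_pairBits, List.length_replicate]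
    · rw [valB_bits, Comp.num_eq A hV w _ hz, List.length_replicate, Comp.mart_eq]
      rw [pow_add (2 : ℝ) k, inv_pow]
      simp only [Bool.false_eq_true, if_false]
      field_simp

end Pool.Agent.H752.KM
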